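import Pool.Agent.Helper11.PC.Defs

namespace Pool.Agent.Helper31.PC

universe u

open scoped Pointwise

theorem hsa {G : Type u} [Group G] [LinearOrder G] [MulLeftStrictMono G] [MulRightStrictMono G]
    {s t : Set G} (hs : s.IsPWO) (ht : t.IsPWO) :
    (s * t).IsPWO ∧ ∀ x : G, {a | a ∈ s ∧ a⁻¹ * x ∈ t}.Finite := by
  have hmulL : ∀ a b c : G, b < c → a * b < a * c := fun a b c h => mul_lt_mul_right h a
  have hmulR : ∀ a b c : G, b < c → b * a < c * a := fun a b c h => mul_lt_mul_left h a
  constructor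
  · have h1 : (s ×ˢ t).IsPWO := hs.prod ht
    have hmono : Monotone (fun p : G × G => p.1 * p.2) := by
      rintro ⟨a, b⟩ ⟨a', b'⟩ ⟨h1, h2⟩
      simp only at h1 h2 ⊢
      have e1 : a * b ≤ a' * b := by
        rcases h1.lt_or_eq with h | h
        · exact (hmulR b a a' h).le
        · rw [h]
      have e2 : a' * b ≤ a' * b' := by
        rcases h2.lt_or_eq with h | h
        · exact (hmulL a' b b' h).le
        · rw [h]
      exact e1.trans e2
    have h2 := h1.image_of_monotone hmono
    rwa [Set.image_mul_prod] at h2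
  · intro x
    by_contra hinf
    have hinf' : {a | a ∈ s ∧ a⁻¹ * x ∈ t}.Infinite := hinf
    let u : ℕ ↪ {a | a ∈ s ∧ a⁻¹ * x ∈ t} := hinf'.natEmbedding
    obtain ⟨g, hg⟩ := hs.exists_monotone_subseq (f := fun n => (u n : G)) (fun n => (u n).2.1)
    have hstrict : ∀ m n, m < n → (u (g m) : G) < (u (g n) : G) := by
      intro m n hmn
      apply lt_of_le_of_ne (hg hmn.le)
      intro h
      have := u.injective (Subtype.ext h)
      exact hmn.ne (g.injective this)
    obtain ⟨m, n, hmn, hle⟩ := ht (fun n => ⟨(u (g n) : G)⁻¹ * x, (u (g n)).2.2⟩)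
    have h3 := hstrict m n hmn
    have h4 : ((u (g n) : G))⁻¹ < ((u (g m) : G))⁻¹ := by
      have h5 := hmulL ((u (g n) : G))⁻¹ _ _ h3
      have h6 := hmulR ((u (g m) : G))⁻¹ _ _ h5
      rw [inv_mul_cancel, one_mul, mul_assoc, mul_inv_cancel, mul_one] at h6
      exact h6
    exact absurd hle (not_le.mpr (hmulR x _ _ h4))

end Pool.Agent.Helper31.PC
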